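import Mathlib

set_option autoImplicit false
open scoped Pointwise

namespace Pool.Agent.H21.PierceBase

/-- One-dimensional selection: real sets whose cross distances are at most one. -/
theorem select_one (n : ℕ) (hn : 2 ≤ n) (A : Fin n → Set ℝ) (hA : ∀ i, (A i).Nonempty)
    (hd : ∀ i j : Fin n, i ≠ j → ∀ a ∈ A i, ∀ b ∈ A j, a - b ≤ 1) :
    ∃ (m : Fin n) (δ c : ℝ), 0 ≤ δ ∧ δ ≤ 1 ∧
      (∀ i, i ≠ m → ∀ a ∈ A i, |a - c| ≤ (1 - δ) / 2) ∧
      (∀ i, ∀ a ∈ A i, |a - c| ≤ (1 + δ) / 2) := by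
  have hne : ∀ i : Fin n, ∃ j : Fin n, j ≠ i := by
    intro i
    have : Nontrivial (Fin n) := Fin.nontrivial_iff_two_le.mpr hn
    exact exists_ne i
  have hba : ∀ i, BddAbove (A i) := by
    intro i
    obtain ⟨j, hj⟩ := hne i
    obtain ⟨b, hb⟩ := hA j
    refine ⟨b + 1, ?_⟩
    intro a ha
    have := hd i j (Ne.symm hj) a ha b hb
    linarith
  have hbb : ∀ i, BddBelow (A i) := by
    intro i
    obtain ⟨j, hj⟩ := hne i
    obtain ⟨b, hb⟩ := hA j
    refine ⟨b - 1, ?_⟩
    intro a ha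
    have := hd j i hj b hb a ha
    linarith
  have hcross : ∀ i j : Fin n, i ≠ j → sSup (A i) - sInf (A j) ≤ 1 := by
    intro i j hij
    have h1 : ∀ b ∈ A j, sSup (A i) ≤ b + 1 := by
      intro b hb
      apply csSup_le (hA i)
      intro a ha
      have := hd i j hij a ha b hb
      linarith
    have h2 : sSup (A i) - 1 ≤ sInf (A j) := by
      apply le_csInf (hA j)
      intro b hb
      have := h1 b hb
      linarith
    linarith
  have hle : ∀ i, ∀ a ∈ A i, a ≤ sSup (A i) := fun i a ha => le_csSup (hba i) ha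
  have hge : ∀ i, ∀ a ∈ A i, sInf (A i) ≤ a := fun i a ha => csInf_le (hbb i) ha
  have : Nonempty (Fin n) := ⟨⟨0, by omega⟩⟩
  obtain ⟨m, hm⟩ := Finite.exists_max (fun i : Fin n => sSup (A i) - sInf (A i))
  obtain ⟨p, hp⟩ := Finite.exists_max (fun i : Fin n => sSup (A i))
  obtain ⟨q, hq⟩ := Finite.exists_min (fun i : Fin n => sInf (A i))
  by_cases hW : 1 ≤ sSup (A m) - sInf (A m)
  · obtain ⟨j, hj⟩ := hne m
    have h1 := hcross m j (Ne.symm hj)
    have h2 := hcross j m hj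
    have h3 : sInf (A j) ≤ sSup (A j) := by
      obtain ⟨b, hb⟩ := hA j
      exact le_trans (hge j b hb) (hle j b hb)
    refine ⟨m, sSup (A m) - sInf (A m) - 1, (sSup (A m) + sInf (A m)) / 2, by linarith,
      by linarith, ?_, ?_⟩
    · intro i hi a ha
      have e1 := hcross i m hi
      have e2 := hcross m i (Ne.symm hi)
      have e3 := hle i a ha
      have e4 := hge i a ha
      rw [abs_le]
      constructor <;> linarith
    · intro i a ha
      by_cases hi : i = m
      · subst hi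
        have e3 := hle i a ha
        have e4 := hge i a ha
        rw [abs_le]
        constructor <;> linarith
      · have e1 := hcross i m hi
        have e2 := hcross m i (Ne.symm hi)
        have e3 := hle i a ha
        have e4 := hge i a ha
        rw [abs_le]
        constructor <;> linarith
  · push Not at hW
    have hUL : sSup (A p) - sInf (A q) ≤ 1 := by
      by_cases hpq : p = q
      · subst hpq
        have := hm p
        linarith
      · exact hcross p q hpq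
    refine ⟨m, 0, (sSup (A p) + sInf (A q)) / 2, le_refl _, by norm_num, ?_, ?_⟩
    · intro i _ a ha
      have e1 := hle i a ha
      have e2 := hge i a ha
      have e3 := hp i
      have e4 := hq i
      rw [abs_le]
      constructor <;> linarith
    · intro i a ha
      have e1 := hle i a ha
      have e2 := hge i a ha
      have e3 := hp i
      have e4 := hq i
      rw [abs_le]
      constructor <;> linarith

/-- Two-dimensional selection. -/
theorem select_two {X : Type*} (n : ℕ) (hn : 2 ≤ n) (A : Fin n → Set X)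
    (hA : ∀ i, (A i).Nonempty) (f g : X → ℝ)
    (hf : ∀ i j : Fin n, i ≠ j → ∀ a ∈ A i, ∀ b ∈ A j, f a - f b ≤ 1)
    (hg : ∀ i j : Fin n, i ≠ j → ∀ a ∈ A i, ∀ b ∈ A j, g a - g b ≤ 1) :
    ∃ (m : Fin n) (s t c d : ℝ), 0 ≤ s ∧ 0 ≤ t ∧ s + t = 1 ∧
      (∀ i, i ≠ m → ∀ a ∈ A i, |f a - c| ≤ s ∧ |g a - d| ≤ t) := by
  obtain ⟨m₁, δ₁, c, h0, h1, h2, h3⟩ := select_one n hn (fun i => f '' (A i))
    (fun i => (hA i).image f) (by
      rintro i j hij _ ⟨a, ha, rfl⟩ _ ⟨b, hb, rfl⟩
      exact hf i j hij a ha b hb)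
  obtain ⟨m₂, δ₂, d, k0, k1, k2, k3⟩ := select_one n hn (fun i => g '' (A i))
    (fun i => (hA i).image g) (by
      rintro i j hij _ ⟨a, ha, rfl⟩ _ ⟨b, hb, rfl⟩
      exact hg i j hij a ha b hb)
  rcases le_total δ₂ δ₁ with h | h
  · refine ⟨m₁, (1 - δ₁) / 2, (1 + δ₁) / 2, c, d, by linarith, by linarith, by ring, ?_⟩
    intro i hi a ha
    refine ⟨h2 i hi _ ⟨a, ha, rfl⟩, ?_⟩
    have := k3 i _ ⟨a, ha, rfl⟩
    linarith
  · refine ⟨m₂, (1 + δ₂) / 2, (1 - δ₂) / 2, c, d, by linarith, by linarith, by ring, ?_⟩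
    intro i hi a ha
    refine ⟨?_, k2 i hi _ ⟨a, ha, rfl⟩⟩
    have := h3 i _ ⟨a, ha, rfl⟩
    linarith

/-- The determinant of two plane vectors. -/
def dt (u v : EuclideanSpace ℝ (Fin 2)) : ℝ := u 0 * v 1 - u 1 * v 0

theorem dt_identity (x u v : EuclideanSpace ℝ (Fin 2)) :
    dt u v • x = dt x v • u + dt u x • v := by
  ext i
  fin_cases i <;> simp [dt] <;> ring

/-- A convex set containing two segments contains their weighted Minkowski combination. -/
theorem box_mem (K : Set (EuclideanSpace ℝ (Fin 2))) (hK : Convex ℝ K)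
    (e₁ q₁ e₂ q₂ : EuclideanSpace ℝ (Fin 2)) (he₁ : e₁ ∈ K) (hq₁ : q₁ ∈ K) (he₂ : e₂ ∈ K)
    (hq₂ : q₂ ∈ K) (s t α β : ℝ) (hst : s + t = 1) (hα0 : 0 ≤ α)
    (hα1 : α ≤ s) (hβ0 : 0 ≤ β) (hβ1 : β ≤ t) :
    s • q₁ + t • q₂ + α • (e₁ - q₁) + β • (e₂ - q₂) ∈ K := by
  have hs : 0 ≤ s := hα0.trans hα1
  have ht : 0 ≤ t := hβ0.trans hβ1
  have h := hK.sum_mem (t := (Finset.univ : Finset (Fin 4))) (w := ![s - α, α, t - β, β])
    (z := ![q₁, e₁, q₂, e₂]) (by
      intro i _
      fin_cases i <;> simp <;> linarith) (by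
      simp [Fin.sum_univ_four]; linarith) (by
      intro i _
      fin_cases i <;> simp [he₁, hq₁, he₂, hq₂])
  simp only [Fin.sum_univ_four] at h
  convert h using 1
  simp
  module

theorem mem_vadd (a p : EuclideanSpace ℝ (Fin 2)) (K : Set (EuclideanSpace ℝ (Fin 2))) :
    p ∈ a +ᵥ K ↔ p - a ∈ K := by
  rw [Set.mem_vadd_set_iff_neg_vadd_mem]
  simp [sub_eq_neg_add]

end Pool.Agent.H21.PierceBase
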